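import Pool.Agent.H33.Prom.Final

/-!
# Promotion orbit lengths along stable sequences `T[n]` do not always divide a quasipolynomial

The tableau is `T = T0` with rows `2, 5, 6, 13, 15` and `11`.  For
`n = 24 * 5 ^ i * v + 34` with `v` odd, `v ≥ 7` and `2 ^ i * v ≡ 2 (mod 5)` the orbit length is
`f_i (n)` for a cubic polynomial `f_i` depending on `i` (`orbit_formula`), and infinitely many of
the `f_i` are pairwise not proportional, so they cannot all divide one nonzero polynomial.
-/

namespace Pool.Agent.Results.MP_e79925_co.PromotionOrbits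

open H33.Prom

/-- There is a tableau `T` such that for every quasipolynomial `q` which takes nonzero integer
values at all large integers there are arbitrarily large `n` for which `T[n]` is a standard Young
tableau and its promotion orbit length does not divide `q(n)`. -/
theorem result : ∃ T : PTab, ∀ q : ℤ → ℝ, IsQuasiPolynomial q →
    (∃ N1 : ℤ, ∀ n ≥ N1, ∃ z : ℤ, z ≠ 0 ∧ q n = z) →
    ∀ N0 : ℕ, ∃ n : ℕ, N0 ≤ n ∧ IsSYT n (T.stable n) ∧ 0 < orbitLength n (T.stable n) ∧
      ∀ z : ℤ, q n = z → ¬ ((orbitLength n (T.stable n) : ℤ) ∣ z) :=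
  ⟨T0, fun q hq hq' N0 => main q hq hq' N0⟩

end Pool.Agent.Results.MP_e79925_co.PromotionOrbits
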